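import Mathlib
import Pool.Agent.H75.Perc.Prob

set_option autoImplicit false
open Finset

/-! Abstract upper bound for events below a hull: if the hull `Ah ω` takes values in a finite family `H`
and the event `Ah = A` (together with `X`) does not depend on the labels of `A`, then events that are
implied, on `Ah = A`, by independent events inside disjoint parts of `A`, have probability at most
`∑_A P(X, Ah = A) ∏_C P_C(Z A C)`. -/

namespace Pool.Agent.H76.Q1

open Pool.Agent.H75.Perc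

variable {α : Type*} [DecidableEq α]

/-- union bound -/
lemma Pr_le_sum {ι : Type*} (E : Finset α) (s : Finset ι) (A : Finset α → Prop)
    (B : ι → Finset α → Prop) (h : ∀ ω, ω ⊆ E → A ω → ∃ i ∈ s, B i ω) :
    Pr E A ≤ ∑ i ∈ s, Pr E (B i) := by
  classical
  induction s using Finset.induction_on generalizing A with
  | empty =>
    rw [sum_empty]
    have h1 : Pr E A ≤ Pr E (fun _ => False) :=
      Pr_mono fun ω hω h2 => by
        obtain ⟨i, hi, _⟩ := h ω hω h2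
        exact absurd hi (notMem_empty i)
    have h2 : Pr E (fun _ => False) = 0 := by
      unfold Pr
      simp
    linarith
  | insert i s hi ih =>
    rw [sum_insert hi]
    have h1 : Pr E A ≤ Pr E (fun ω => B i ω ∨ (∃ j ∈ s, B j ω)) :=
      Pr_mono fun ω hω h2 => by
        obtain ⟨j, hj, hj2⟩ := h ω hω h2
        rcases mem_insert.1 hj with rfl | hj
        · exact Or.inl hj2
        · exact Or.inr ⟨j, hj, hj2⟩
    have h2 := Pr_or_le E (B i) (fun ω => ∃ j ∈ s, B j ω)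
    have h3 := ih (fun ω => ∃ j ∈ s, B j ω) (fun ω _ h4 => h4)
    linarith

/-- independence of the traces on finitely many pairwise disjoint sets -/
lemma Pr_prod {ι : Type*} [DecidableEq ι] (E : Finset α) (s : Finset ι) (C : ι → Finset α)
    (hC : ∀ i ∈ s, C i ⊆ E) (hd : ∀ i ∈ s, ∀ j ∈ s, i ≠ j → Disjoint (C i) (C j))
    (Z : ι → Finset α → Prop) :
    Pr E (fun ω => ∀ i ∈ s, Z i (ω ∩ C i)) = ∏ i ∈ s, Pr (C i) (Z i) := by
  classical
  induction s using Finset.induction_on with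
  | empty =>
    rw [prod_empty, ← Pr_true E]
    exact Pr_congr fun ω _ => by simp
  | insert i s hi ih =>
    rw [prod_insert hi, ← ih (fun j hj => hC j (mem_insert_of_mem hj))
      (fun j hj k hk => hd j (mem_insert_of_mem hj) k (mem_insert_of_mem hk))]
    set D := s.biUnion C with hD
    have hDE : D ⊆ E := by
      intro x hx
      rw [hD, mem_biUnion] at hx
      obtain ⟨j, hj, hx⟩ := hx
      exact hC j (mem_insert_of_mem hj) hx
    have hdis : Disjoint (C i) D := by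
      rw [hD, disjoint_biUnion_right]
      intro j hj
      refine hd i (mem_insert_self _ _) j (mem_insert_of_mem hj) ?_
      rintro rfl
      exact hi hj
    have key : ∀ (ω : Finset α) (j : ι), j ∈ s → (ω ∩ D) ∩ C j = ω ∩ C j := by
      intro ω j hj
      have h0 : D ∩ C j = C j := by
        rw [hD]
        exact inter_eq_right.2 (subset_biUnion_of_mem C hj)
      rw [inter_assoc, h0]
    have h1 := Pr_indep (hC i (mem_insert_self _ _)) hDE hdis (Z i)
      (fun ω => ∀ j ∈ s, Z j (ω ∩ C j))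
    have h2 := Pr_restrict hDE (fun ω => ∀ j ∈ s, Z j (ω ∩ C j))
    rw [← h2] at h1
    have h3 : Pr E (fun ω => ∀ j ∈ s, Z j (ω ∩ D ∩ C j)) = Pr E (fun ω => ∀ j ∈ s, Z j (ω ∩ C j)) :=
      Pr_congr fun ω _ => by
        constructor
        · intro h j hj
          have := h j hj
          rwa [key ω j hj] at this
        · intro h j hj
          rw [key ω j hj]
          exact h j hj
    rw [h3] at h1
    rw [← h1]
    refine Pr_congr fun ω _ => ?_
    constructor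
    · intro h
      refine ⟨h i (mem_insert_self _ _), fun j hj => ?_⟩
      rw [key ω j hj]
      exact h j (mem_insert_of_mem hj)
    · rintro ⟨h4, h5⟩ j hj
      rcases mem_insert.1 hj with rfl | hj
      · exact h4
      · have := h5 j hj
        rwa [key ω j hj] at this

/-- The event `P` does not depend on the labels of `A`, `Z i` are events inside disjoint parts of `A`. -/
lemma Pr_split_prod {ι : Type*} [DecidableEq ι] (E A : Finset α) (hAE : A ⊆ E) (P : Finset α → Prop)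
    (hP : ∀ ω, ω ⊆ E → (P ω ↔ P (ω \ A)))
    (s : Finset ι) (C : ι → Finset α) (hC : ∀ i ∈ s, C i ⊆ A)
    (hd : ∀ i ∈ s, ∀ j ∈ s, i ≠ j → Disjoint (C i) (C j)) (Z : ι → Finset α → Prop) :
    Pr E (fun ω => P ω ∧ ∀ i ∈ s, Z i (ω ∩ C i)) = Pr E P * ∏ i ∈ s, Pr (C i) (Z i) := by
  classical
  have h1 := Pr_split hAE (fun ω => ∀ i ∈ s, Z i (ω ∩ C i)) P
  have h2 : Pr (E \ A) P = Pr E P := by
    rw [← Pr_restrict (sdiff_subset : E \ A ⊆ E) P]
    refine Pr_congr fun ω hω => ?_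
    rw [hP ω hω]
    have : ω ∩ (E \ A) = ω \ A := by
      ext x
      simp only [mem_inter, mem_sdiff]
      constructor
      · rintro ⟨h3, _, h4⟩; exact ⟨h3, h4⟩
      · rintro ⟨h3, h4⟩; exact ⟨h3, hω h3, h4⟩
    rw [this]
  rw [h2, Pr_prod A s C hC hd Z, mul_comm] at h1
  rw [← h1]
  refine Pr_congr fun ω hω => ?_
  rw [hP ω hω]
  have h3 : ∀ i ∈ s, ω ∩ A ∩ C i = ω ∩ C i := by
    intro i hi
    rw [inter_assoc, inter_eq_right.2 (hC i hi)]
  constructor
  · rintro ⟨h4, h5⟩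
    refine ⟨fun i hi => ?_, h4⟩
    rw [h3 i hi]
    exact h5 i hi
  · rintro ⟨h4, h5⟩
    refine ⟨h5, fun i hi => ?_⟩
    have := h4 i hi
    rwa [h3 i hi] at this

/-- partition of an event by the value of a function with finitely many values -/
lemma Pr_eq_sum {ι : Type*} [DecidableEq ι] (E : Finset α) (s : Finset ι) (A : Finset α → Prop)
    (f : Finset α → ι) (h : ∀ ω, ω ⊆ E → A ω → f ω ∈ s) :
    Pr E A = ∑ i ∈ s, Pr E (fun ω => A ω ∧ f ω = i) := by
  classical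
  have h1 : ∀ i, Pr E (fun ω => A ω ∧ f ω = i) =
      (((E.powerset.filter A).filter (fun ω => f ω = i)).card : ℝ) / 2 ^ E.card := by
    intro i
    rw [Pr_eq, filter_filter]
  rw [sum_congr rfl fun i _ => h1 i, Pr_eq, ← sum_div]
  congr 1
  norm_cast
  refine card_eq_sum_card_fiberwise (fun ω hω => ?_)
  rw [mem_coe, mem_filter, mem_powerset] at hω
  exact h ω hω.1 hω.2

/-- `Pr (X, A ⊆ Ah) = ∑_{B ⊇ A} Pr (X, Ah = B)` -/
theorem Pr_hull_sum {κ : Type*} [DecidableEq κ] (E : Finset α) (H : Finset (Finset κ))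
    (Ah : Finset α → Finset κ) (X : Finset α → Prop)
    (hAh : ∀ ω, ω ⊆ E → X ω → Ah ω ∈ H) (A : Finset κ) :
    Pr E (fun ω => X ω ∧ A ⊆ Ah ω) = ∑ B ∈ H with A ⊆ B, Pr E (fun ω => X ω ∧ Ah ω = B) := by
  classical
  rw [Pr_eq_sum E (H.filter (fun B => A ⊆ B)) (fun ω => X ω ∧ A ⊆ Ah ω) Ah
    (fun ω hω h => mem_filter.2 ⟨hAh ω hω h.1, h.2⟩)]
  refine sum_congr rfl fun B hB => Pr_congr fun ω _ => ?_
  rw [mem_filter] at hB
  constructor
  · rintro ⟨h1, h2⟩; exact ⟨h1.1, h2⟩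
  · rintro ⟨h1, h2⟩; exact ⟨⟨h1, h2 ▸ hB.2⟩, h2⟩

/-- `P` does not depend on the labels of `L`, `B` is an event inside `L`. -/
lemma Pr_split_one (E L : Finset α) (hL : L ⊆ E) (P B : Finset α → Prop)
    (hP : ∀ ω, ω ⊆ E → (P ω ↔ P (ω \ L))) :
    Pr E (fun ω => P ω ∧ B (ω ∩ L)) = Pr E P * Pr L B := by
  have h := Pr_split_prod E L hL P hP {()} (fun _ => L) (fun _ _ => subset_rfl)
    (fun i _ j _ hij => absurd (Subsingleton.elim i j) hij) (fun _ => B)
  rw [prod_singleton] at h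
  rw [← h]
  exact Pr_congr fun ω _ => by simp

/-- **Upper bound through a hull** (UB2, UB3). The hull `Ah ω` is a set of cells, `L A` are the labels of
`A`, `B A` is an event inside `L A`. -/
theorem hull_upper {κ ι : Type*} [DecidableEq κ] (E : Finset α) (H : Finset (Finset κ))
    (L : Finset κ → Finset α) (Ah : Finset α → Finset κ) (X Y : Finset α → Prop)
    (hH : ∀ A ∈ H, L A ⊆ E)
    (hAh : ∀ ω, ω ⊆ E → X ω → Ah ω ∈ H)
    (hloc : ∀ A ∈ H, ∀ ω, ω ⊆ E → ((X ω ∧ Ah ω = A) ↔ (X (ω \ L A) ∧ Ah (ω \ L A) = A)))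
    (good : Finset κ → Prop) [DecidablePred good]
    (I : Finset ι) (K : ι → Finset κ)
    (hgood : ∀ ω, ω ⊆ E → X ω → (∀ i ∈ I, X (ω \ L (K i))) → good (Ah ω))
    (B : Finset κ → Finset α → Prop)
    (hY : ∀ A ∈ H, good A → ∀ ω, ω ⊆ E → X ω → Ah ω = A → Y ω → B A (ω ∩ L A)) :
    Pr E (fun ω => X ω ∧ Y ω) ≤
      (∑ A ∈ H with good A, Pr E (fun ω => X ω ∧ Ah ω = A) * Pr (L A) (B A)) +
        ∑ i ∈ I, Pr E (fun ω => X ω ∧ Y ω ∧ ¬ X (ω \ L (K i))) := by
  classical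
  have h1 : Pr E (fun ω => X ω ∧ Y ω) ≤ Pr E (fun ω => (∃ A ∈ H.filter good,
      ((X ω ∧ Ah ω = A) ∧ B A (ω ∩ L A))) ∨ (∃ i ∈ I, X ω ∧ Y ω ∧ ¬ X (ω \ L (K i)))) := by
    refine Pr_mono fun ω hω h => ?_
    by_cases hg : ∀ i ∈ I, X (ω \ L (K i))
    · left
      have h2 := hAh ω hω h.1
      have h3 := hgood ω hω h.1 hg
      exact ⟨Ah ω, mem_filter.2 ⟨h2, h3⟩, ⟨h.1, rfl⟩, hY _ h2 h3 ω hω h.1 rfl h.2⟩
    · push Not at hg
      obtain ⟨i, hi, hi2⟩ := hg
      exact Or.inr ⟨i, hi, h.1, h.2, hi2⟩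
  refine h1.trans ((Pr_or_le E _ _).trans (add_le_add ?_ ?_))
  · refine (Pr_le_sum E (H.filter good) _ (fun A ω => (X ω ∧ Ah ω = A) ∧ B A (ω ∩ L A))
      (fun ω _ h => h)).trans ?_
    refine sum_le_sum fun A hA => ?_
    rw [mem_filter] at hA
    rw [Pr_split_one E (L A) (hH A hA.1) (fun ω => X ω ∧ Ah ω = A) (B A) (hloc A hA.1)]
  · exact Pr_le_sum E I _ (fun i ω => X ω ∧ Y ω ∧ ¬ X (ω \ L (K i))) (fun ω _ h => h)

/-- exact formula for the sum over the hulls (used for the lower bound) -/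
theorem hull_sum_eq {κ : Type*} [DecidableEq κ] (E : Finset α) (H : Finset (Finset κ))
    (L : Finset κ → Finset α) (Ah : Finset α → Finset κ) (X : Finset α → Prop)
    (hH : ∀ A ∈ H, L A ⊆ E)
    (hloc : ∀ A ∈ H, ∀ ω, ω ⊆ E → ((X ω ∧ Ah ω = A) ↔ (X (ω \ L A) ∧ Ah (ω \ L A) = A)))
    (good : Finset κ → Prop) [DecidablePred good] (B : Finset κ → Finset α → Prop) :
    (∑ A ∈ H with good A, Pr E (fun ω => X ω ∧ Ah ω = A) * Pr (L A) (B A)) =
      Pr E (fun ω => X ω ∧ Ah ω ∈ H ∧ good (Ah ω) ∧ B (Ah ω) (ω ∩ L (Ah ω))) := by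
  classical
  have h1 : ∀ A ∈ H.filter good, Pr E (fun ω => X ω ∧ Ah ω = A) * Pr (L A) (B A) =
      Pr E (fun ω => (X ω ∧ Ah ω ∈ H ∧ good (Ah ω) ∧ B (Ah ω) (ω ∩ L (Ah ω))) ∧ Ah ω = A) := by
    intro A hA
    rw [mem_filter] at hA
    rw [← Pr_split_one E (L A) (hH A hA.1) (fun ω => X ω ∧ Ah ω = A) (B A) (hloc A hA.1)]
    refine Pr_congr fun ω _ => ?_
    constructor
    · rintro ⟨⟨h2, rfl⟩, h3⟩; exact ⟨⟨h2, hA.1, hA.2, h3⟩, rfl⟩
    · rintro ⟨⟨h2, _, _, h3⟩, rfl⟩; exact ⟨⟨h2, rfl⟩, h3⟩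
  rw [sum_congr rfl h1]
  rw [← Pr_eq_sum E (H.filter good)
    (fun ω => X ω ∧ Ah ω ∈ H ∧ good (Ah ω) ∧ B (Ah ω) (ω ∩ L (Ah ω))) Ah]
  exact fun ω _ h => mem_filter.2 ⟨h.2.1, h.2.2.1⟩

end Pool.Agent.H76.Q1
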