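import Mathlib
import Pool.Agent.Q1.M5.Defs
import Pool.Agent.H76.Q1.HullUp

set_option autoImplicit false
open Finset

/-! Components of a hull as types: labels of a component, `CT` in the domain implies `CT` in the
component (UB1 of Q1_C2.md). -/

namespace Pool.Agent.H76.Q1

open Pool.Agent.H75.Perc hiding WL
open Pool.Agent.H49.Q1 hiding sL
open Pool.Agent.Q1.M4 Pool.Agent.Q1.M5

section grid

variable {X Y : ℤ → ℤ}

lemma near_of_le {X : ℤ → ℤ} (hX : StrictMono X) {a b z : ℤ} (h1 : X a ≤ z) (h2 : z ≤ X (a + 1))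
    (h3 : X b ≤ z) (h4 : z ≤ X (b + 1)) : b ≤ a + 1 ∧ a ≤ b + 1 ∧ (b = a + 1 → z = X (a + 1)) ∧
      (a = b + 1 → z = X a) := by
  have h5 := hX.le_iff_le.1 (h3.trans h2)
  have h6 := hX.le_iff_le.1 (h1.trans h4)
  refine ⟨h5, h6, ?_, ?_⟩
  · rintro rfl; omega
  · rintro rfl; omega

lemma near_of_le2 {X : ℤ → ℤ} (hX : StrictMono X) {a b z : ℤ} (h1 : 2 * X a ≤ z)
    (h2 : z ≤ 2 * X (a + 1)) (h3 : 2 * X b ≤ z) (h4 : z ≤ 2 * X (b + 1)) :
    b ≤ a + 1 ∧ a ≤ b + 1 ∧ (b = a + 1 → z = 2 * X (a + 1)) ∧ (a = b + 1 → z = 2 * X a) := by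
  have h5 := hX.le_iff_le.1 (show X b ≤ X (a + 1) by omega)
  have h6 := hX.le_iff_le.1 (show X a ≤ X (b + 1) by omega)
  refine ⟨h5, h6, ?_, ?_⟩
  · rintro rfl; omega
  · rintro rfl; omega

/-- a label in two different closed cells lies on their common side -/
lemma gcell_inter (hX : StrictMono X) (hY : StrictMono Y) {c d e : ℤ × ℤ}
    (h1 : e ∈ gcell X Y c) (h2 : e ∈ gcell X Y d) (hcd : c ≠ d) :
    ∃ k : ℤ, d = c + dir (k - 1) ∧ e ∈ sL X Y (c, k) := by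
  have h1' := h1
  unfold gcell at h1 h2
  rw [mem_Bx] at h1 h2
  obtain ⟨⟨a1, a2⟩, ⟨a3, a4⟩, a5⟩ := h1
  obtain ⟨⟨b1, b2⟩, ⟨b3, b4⟩, -⟩ := h2
  obtain ⟨x1, x2, x3, x4⟩ := near_of_le2 hX a1 a2 b1 b2
  obtain ⟨y1, y2, y3, y4⟩ := near_of_le2 hY a3 a4 b3 b4
  obtain ⟨c1, c2⟩ := c
  obtain ⟨d1, d2⟩ := d
  simp only at *
  have hx : d1 = c1 ∨ d1 = c1 + 1 ∨ c1 = d1 + 1 := by omega
  have hy : d2 = c2 ∨ d2 = c2 + 1 ∨ c2 = d2 + 1 := by omega
  unfold sL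
  simp only [mem_filter]
  rcases hx with hx | hx | hx <;> rcases hy with hy | hy | hy
  · exact absurd (by rw [hx, hy]) hcd
  · have := y3 hy
    refine ⟨2, ?_, h1', ?_, ?_, ?_, ?_⟩
    · rw [hx, hy]; norm_num [dir]
    all_goals intro h
    all_goals omega
  · have := y4 hy
    refine ⟨0, ?_, h1', ?_, ?_, ?_, ?_⟩
    · rw [hx, hy]; norm_num [dir]
    all_goals intro h
    all_goals omega
  · have := x3 hx
    refine ⟨1, ?_, h1', ?_, ?_, ?_, ?_⟩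
    · rw [hx, hy]; norm_num [dir]
    all_goals intro h
    all_goals omega
  · have := x3 hx; have := y3 hy; omega
  · have := x3 hx; have := y4 hy; omega
  · have := x4 hx
    refine ⟨3, ?_, h1', ?_, ?_, ?_, ?_⟩
    · rw [hx, hy]; norm_num [dir]
    all_goals intro h
    all_goals omega
  · have := x4 hx; have := y3 hy; omega
  · have := x4 hx; have := y4 hy; omega

/-- a vertex of two adjacent cells lies on their common side -/
lemma rect_adj {c v : ℤ × ℤ} {k : ℤ}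
    (h1 : inRect X Y c v) (h2 : inRect X Y (c + dir (k - 1)) v) : sV X Y (c, k) v := by
  obtain ⟨⟨a1, a2⟩, ⟨a3, a4⟩⟩ := h1
  obtain ⟨c1, c2⟩ := c
  unfold sV onCell
  unfold inRect at h2
  rcases dir_cases (k - 1) with ⟨h, e⟩ | ⟨h, e⟩ | ⟨h, e⟩ | ⟨h, e⟩ <;> rw [e] at h2 <;>
    simp only [Prod.mk_add_mk, add_zero] at h2 a1 a2 a3 a4 <;>
    refine ⟨⟨⟨a1, a2⟩, a3, a4⟩, ?_, ?_, ?_, ?_⟩ <;> intro hk <;>
    first
    | (exfalso; omega)
    | (simp only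
       obtain ⟨⟨b1, b2⟩, b3, b4⟩ := h2
       first
       | omega
       | (rw [show c1 + -1 + 1 = c1 by ring] at b2; omega)
       | (rw [show c2 + -1 + 1 = c2 by ring] at b4; omega))

/-- A vertex of a cell of `C` and of a cell of `Q` outside `C` lies on an inner side of `C`. -/
lemma inner_side (hX : StrictMono X) (hY : StrictMono Y) {Q C : Finset Cell} (hQ : Good Q)
    (hCQ : C ⊆ Q) {c d : Cell} {v : ℤ × ℤ} (hc : c ∈ C) (hd : d ∈ Q) (hdC : d ∉ C)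
    (hcv : inRect X Y c v) (hdv : inRect X Y d v) :
    ∃ s : Cell × ℤ, s.1 ∈ C ∧ s.1 + dir (s.2 - 1) ∈ Q ∧ s.1 + dir (s.2 - 1) ∉ C ∧ sV X Y s v := by
  have key : ∀ a b : Cell, Adj4 a b → a ∈ C → b ∈ Q → b ∉ C → inRect X Y a v → inRect X Y b v →
      ∃ s : Cell × ℤ, s.1 ∈ C ∧ s.1 + dir (s.2 - 1) ∈ Q ∧ s.1 + dir (s.2 - 1) ∉ C ∧
        sV X Y s v := by
    rintro a b ⟨k, rfl⟩ ha hb hbC hav hbv
    refine ⟨(a, k + 1), ha, ?_, ?_, ?_⟩
    · simpa using hb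
    · simpa using hbC
    · exact rect_adj hav (by simpa using hbv)
  have key2 : ∀ e : Cell, Adj4 c e → Adj4 e d → e ∈ Q → inRect X Y e v →
      ∃ s : Cell × ℤ, s.1 ∈ C ∧ s.1 + dir (s.2 - 1) ∈ Q ∧ s.1 + dir (s.2 - 1) ∉ C ∧
        sV X Y s v := by
    intro e h1 h2 h3 h4
    by_cases h5 : e ∈ C
    · exact key e d h2 h5 hd hdC h4 hdv
    · exact key c e h1 hc h3 h5 hcv h4
  have hcv' := hcv
  have hdv' := hdv
  obtain ⟨⟨a1, a2⟩, ⟨a3, a4⟩⟩ := hcv'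
  obtain ⟨⟨b1, b2⟩, ⟨b3, b4⟩⟩ := hdv'
  obtain ⟨x1, x2, x3, x4⟩ := near_of_le hX a1 a2 b1 b2
  obtain ⟨y1, y2, y3, y4⟩ := near_of_le hY a3 a4 b3 b4
  obtain ⟨c1, c2⟩ := c
  obtain ⟨d1, d2⟩ := d
  simp only at *
  have hx : d1 = c1 ∨ d1 = c1 + 1 ∨ c1 = d1 + 1 := by omega
  have hy : d2 = c2 ∨ d2 = c2 + 1 ∨ c2 = d2 + 1 := by omega
  rcases hx with hx | hx | hx <;> rcases hy with hy | hy | hy
  · subst hx hy; exact absurd hc hdC
  · subst hx hy; exact key _ _ ⟨1, by simp [dir]⟩ hc hd hdC hcv hdv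
  · subst hx hy; exact key _ _ ⟨3, by simp [dir]⟩ hc hd hdC hcv hdv
  · subst hx hy; exact key _ _ ⟨0, by simp [dir]⟩ hc hd hdC hcv hdv
  · subst hx hy
    rcases hQ.diag1 (c1, c2) (hCQ hc) hd with h | h
    · exact key2 (c1 + 1, c2) ⟨0, by simp [dir]⟩ ⟨1, by simp [dir]⟩ (by simpa using h)
        ⟨⟨b1, b2⟩, a3, a4⟩
    · exact key2 (c1, c2 + 1) ⟨1, by simp [dir]⟩ ⟨0, by simp [dir]⟩ (by simpa using h)
        ⟨⟨a1, a2⟩, b3, b4⟩
  · subst hx hy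
    rcases hQ.diag2 (c1, d2) (by simpa using hd) (by simpa using hCQ hc) with h | h
    · exact key2 (c1, d2) ⟨3, by simp [dir]⟩ ⟨0, by simp [dir]⟩ h
        ⟨⟨a1, a2⟩, b3, b4⟩
    · exact key2 (c1 + 1, d2 + 1) ⟨0, by simp [dir]⟩ ⟨3, by simp [dir]⟩ (by simpa using h)
        ⟨⟨b1, b2⟩, a3, a4⟩
  · subst hx hy; exact key _ _ ⟨2, by simp [dir]⟩ hc hd hdC hcv hdv
  · subst hx hy
    rcases hQ.diag2 (d1, c2) (by simpa using hCQ hc) (by simpa using hd) with h | h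
    · exact key2 (d1, c2) ⟨2, by simp [dir]⟩ ⟨1, by simp [dir]⟩ h
        ⟨⟨b1, b2⟩, a3, a4⟩
    · exact key2 (d1 + 1, c2 + 1) ⟨1, by simp [dir]⟩ ⟨2, by simp [dir]⟩ (by simpa using h)
        ⟨⟨a1, a2⟩, b3, b4⟩
  · subst hx hy
    rcases hQ.diag1 (d1, d2) hd (by simpa using hCQ hc) with h | h
    · exact key2 (d1 + 1, d2) ⟨3, by simp [dir]⟩ ⟨2, by simp [dir]⟩ (by simpa using h)
        ⟨⟨a1, a2⟩, b3, b4⟩
    · exact key2 (d1, d2 + 1) ⟨2, by simp [dir]⟩ ⟨3, by simp [dir]⟩ (by simpa using h)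
        ⟨⟨b1, b2⟩, a3, a4⟩

end grid

/-! ### Sub-types -/

/-- `PC` is a type whose cells belong to `P` and whose free arc consists of its sides on the free arc
of `P`. -/
structure SubT (P PC : PType) : Prop where
  sub : PC.Q ⊆ P.Q
  free : ∀ n < PC.N, (n < PC.m ↔ ∃ k < P.m, Eqv (P.side k) (PC.side n))

lemma side_isSide (P : PType) (n : ℕ) : IsSide P.Q (P.side n) := isSide_iter P.side0 n

lemma exists_side (P : PType) {s : Cell × ℤ} (h : IsSide P.Q s) :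
    ∃ n < P.N, Eqv (P.side n) s := P.all s h

lemma side_uniq (P : PType) {n k : ℕ} (hn : n < P.N) (hk : k < P.N)
    (h : Eqv (P.side n) (P.side k)) : n = k := P.inj n hn k hk h.1 h.2

lemma sL_congr {X Y : ℤ → ℤ} {s t : Cell × ℤ} (h : Eqv s t) : sL X Y s = sL X Y t := by
  obtain ⟨s1, s2⟩ := s
  obtain ⟨t1, t2⟩ := t
  obtain ⟨h1, h2⟩ := h
  simp only at h1 h2
  subst h1
  unfold sL
  have : s2 % 4 = t2 % 4 := by omega
  simp only [this]

lemma sV_congr {X Y : ℤ → ℤ} {s t : Cell × ℤ} (h : Eqv s t) (v : ℤ × ℤ) :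
    sV X Y s v ↔ sV X Y t v := by
  obtain ⟨s1, s2⟩ := s
  obtain ⟨t1, t2⟩ := t
  obtain ⟨h1, h2⟩ := h
  simp only at h1 h2
  subst h1
  unfold sV onCell
  have : s2 % 4 = t2 % 4 := by omega
  simp only [this]

lemma mem_WL {P : PType} {X Y : ℤ → ℤ} {e : ℤ × ℤ} :
    e ∈ WL P X Y ↔ ∃ n, P.m ≤ n ∧ n < P.N ∧ e ∈ sL X Y (P.side n) := by
  unfold WL
  simp only [mem_biUnion, mem_Ico]
  constructor
  · rintro ⟨n, h1, h2⟩; exact ⟨n, h1.1, h1.2, h2⟩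
  · rintro ⟨n, h1, h2, h3⟩; exact ⟨n, ⟨h1, h2⟩, h3⟩

lemma sL_sub {X Y : ℤ → ℤ} (s : Cell × ℤ) : sL X Y s ⊆ gcell X Y s.1 := filter_subset _ _

lemma WL_sub (P : PType) (X Y : ℤ → ℤ) : WL P X Y ⊆ gs X Y P.Q := by
  intro e he
  obtain ⟨n, -, -, h⟩ := mem_WL.1 he
  exact gcell_sub_gs (side_isSide P n).1 (sL_sub _ h)

namespace SubT

variable {P PC : PType} {X Y : ℤ → ℤ}

/-- a side of `PC` towards a cell of `P` is wired -/
lemma wired_inner (h : SubT P PC) {s : Cell × ℤ} (hs : s.1 ∈ PC.Q)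
    (h1 : s.1 + dir (s.2 - 1) ∈ P.Q) (h2 : s.1 + dir (s.2 - 1) ∉ PC.Q) :
    ∃ n, PC.m ≤ n ∧ n < PC.N ∧ Eqv (PC.side n) s := by
  obtain ⟨n, hn, hns⟩ := exists_side PC (s := s) ⟨hs, h2⟩
  refine ⟨n, ?_, hn, hns⟩
  by_contra hm
  obtain ⟨k, hk, hk2⟩ := (h.free n hn).1 (by omega)
  have h3 := (side_isSide P k)
  have h4 := (hk2.trans hns).isSide h3
  exact h4.2 h1

/-- a wired side of `P` with its cell in `PC` is a wired side of `PC` -/
lemma wired_outer (h : SubT P PC) {k : ℕ} (hk : P.m ≤ k) (hkN : k < P.N)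
    (hs : (P.side k).1 ∈ PC.Q) : ∃ n, PC.m ≤ n ∧ n < PC.N ∧ Eqv (PC.side n) (P.side k) := by
  have h1 := side_isSide P k
  obtain ⟨n, hn, hns⟩ := exists_side PC (s := P.side k) ⟨hs, fun h2 => h1.2 (h.sub h2)⟩
  refine ⟨n, ?_, hn, hns⟩
  by_contra hm
  obtain ⟨l, hl, hl2⟩ := (h.free n hn).1 (by omega)
  have h3 : l = k := side_uniq P (by have := P.hmN; omega) hkN (hl2.trans hns)
  omega

/-- vertices on inner sides -/
lemma TV_inner (h : SubT P PC) (hX : StrictMono X) (hY : StrictMono Y) {c d : Cell} {v : ℤ × ℤ}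
    (hc : c ∈ PC.Q) (hd : d ∈ P.Q) (hdC : d ∉ PC.Q) (hcv : inRect X Y c v)
    (hdv : inRect X Y d v) : TV PC X Y v := by
  obtain ⟨s, h1, h2, h3, h4⟩ := inner_side hX hY P.good h.sub hc hd hdC hcv hdv
  obtain ⟨n, hn1, hn2, hn3⟩ := h.wired_inner h1 h2 h3
  exact ⟨n, hn1, hn2, (sV_congr hn3 v).2 h4⟩

lemma mem_WL_inner (h : SubT P PC) (hX : StrictMono X) (hY : StrictMono Y) {c d e : ℤ × ℤ}
    (hc : c ∈ PC.Q) (hd : d ∈ P.Q) (hdC : d ∉ PC.Q) (hce : e ∈ gcell X Y c)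
    (hde : e ∈ gcell X Y d) : e ∈ WL PC X Y := by
  obtain ⟨k, hk, hk2⟩ := gcell_inter hX hY hce hde (by rintro rfl; exact hdC hc)
  subst hk
  obtain ⟨n, hn1, hn2, hn3⟩ := h.wired_inner (s := (c, k)) hc hd hdC
  exact mem_WL.2 ⟨n, hn1, hn2, by rw [sL_congr hn3]; exact hk2⟩

/-- a wired label of `P` in a cell of `PC` is wired in `PC` -/
lemma WL_sub_WL (h : SubT P PC) (hX : StrictMono X) (hY : StrictMono Y) {c e : ℤ × ℤ}
    (hc : c ∈ PC.Q) (hce : e ∈ gcell X Y c) (he : e ∈ WL P X Y) : e ∈ WL PC X Y := by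
  obtain ⟨k, hk1, hk2, hk3⟩ := mem_WL.1 he
  by_cases h1 : (P.side k).1 ∈ PC.Q
  · obtain ⟨n, hn1, hn2, hn3⟩ := h.wired_outer hk1 hk2 h1
    exact mem_WL.2 ⟨n, hn1, hn2, by rw [sL_congr hn3]; exact hk3⟩
  · exact h.mem_WL_inner hX hY hc (side_isSide P k).1 h1 hce (sL_sub _ hk3)

/-- the labels of a component are random labels of the domain -/
lemma EL_sub (h : SubT P PC) (hX : StrictMono X) (hY : StrictMono Y) :
    EL PC X Y ⊆ EL P X Y := by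
  intro e he
  unfold EL at he ⊢
  rw [mem_sdiff] at he ⊢
  obtain ⟨h1, h2⟩ := he
  obtain ⟨c, hc, hce⟩ := mem_gs.1 h1
  exact ⟨gs_mono h.sub h1, fun h3 => h2 (h.WL_sub_WL hX hY hc hce h3)⟩

end SubT

lemma sL_nb {X Y : ℤ → ℤ} (hX : StrictMono X) (hY : StrictMono Y) {s : Cell × ℤ} {e : ℤ × ℤ}
    (h : e ∈ sL X Y s) : e ∈ gcell X Y (s.1 + dir (s.2 - 1)) := by
  obtain ⟨⟨c1, c2⟩, k⟩ := s
  unfold sL at h
  rw [mem_filter] at h
  obtain ⟨h0, h1, h2, h3, h4⟩ := h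
  unfold gcell at h0 ⊢
  rw [mem_Bx] at h0 ⊢
  simp only at *
  have a1 := hX (show c1 - 1 < c1 by omega)
  have a2 := hX (show c1 < c1 + 1 by omega)
  have a3 := hX (show c1 + 1 < c1 + 1 + 1 by omega)
  have b1 := hY (show c2 - 1 < c2 by omega)
  have b2 := hY (show c2 < c2 + 1 by omega)
  have b3 := hY (show c2 + 1 < c2 + 1 + 1 by omega)
  rcases dir_cases (k - 1) with ⟨g, e⟩ | ⟨g, e⟩ | ⟨g, e⟩ | ⟨g, e⟩ <;> rw [e] <;>
    simp only [Prod.mk_add_mk, add_zero]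
  · have := h2 (by omega)
    omega
  · have := h3 (by omega)
    omega
  · have := h4 (by omega)
    rw [show c1 + -1 + 1 = c1 by ring, show c1 + -1 = c1 - 1 by ring]
    omega
  · have := h1 (by omega)
    rw [show c2 + -1 + 1 = c2 by ring, show c2 + -1 = c2 - 1 by ring]
    omega

lemma ends_gcell {X Y : ℤ → ℤ} {c u v : ℤ × ℤ} (h : IsUnit4 (v - u))
    (he : u + v ∈ gcell X Y c) : inRect X Y c u ∧ inRect X Y c v := by
  unfold gcell at he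
  rw [mem_Bx] at he
  simp only [Prod.fst_add, Prod.snd_add] at he
  unfold inRect
  rcases unit_cases h with ⟨h1, h2⟩ | ⟨h1, h2⟩ | ⟨h1, h2⟩ | ⟨h1, h2⟩ <;> omega

lemma ends_sL {X Y : ℤ → ℤ} {s : Cell × ℤ} {u v : ℤ × ℤ} (h : IsUnit4 (v - u))
    (he : u + v ∈ sL X Y s) : sV X Y s u ∧ sV X Y s v := by
  have h0 := ends_gcell h (sL_sub _ he)
  unfold sL at he
  rw [mem_filter] at he
  obtain ⟨-, h1, h2, h3, h4⟩ := he
  simp only [Prod.fst_add, Prod.snd_add] at h1 h2 h3 h4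
  obtain ⟨g1, g2⟩ := h0
  unfold inRect at g1 g2
  unfold sV onCell inB
  refine ⟨⟨g1, ?_, ?_, ?_, ?_⟩, g2, ?_, ?_, ?_, ?_⟩ <;> intro hk <;>
    rcases unit_cases h with ⟨e1, e2⟩ | ⟨e1, e2⟩ | ⟨e1, e2⟩ | ⟨e1, e2⟩ <;>
    first
    | (have := h1 hk; omega)
    | (have := h2 hk; omega)
    | (have := h3 hk; omega)
    | (have := h4 hk; omega)

namespace SubT

variable {P PC : PType} {X Y : ℤ → ℤ}

/-- The random labels of a component of `A`. -/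
theorem EL_eq (h : SubT P PC) (hX : StrictMono X) (hY : StrictMono Y) {A : Finset Cell}
    (hA : PC.Q ⊆ A) (hcl : ∀ c ∈ PC.Q, ∀ k : ℤ, c + dir k ∈ A → c + dir k ∈ PC.Q) :
    EL PC X Y = (EL P X Y \ gs X Y (P.Q \ A)) ∩ gs X Y PC.Q := by
  ext e
  constructor
  · intro he
    rw [mem_inter, mem_sdiff]
    have h1 := he
    unfold EL at h1
    rw [mem_sdiff] at h1
    obtain ⟨c, hc, hce⟩ := mem_gs.1 h1.1
    refine ⟨⟨h.EL_sub hX hY he, fun h2 => ?_⟩, h1.1⟩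
    obtain ⟨d, hd, hde⟩ := mem_gs.1 h2
    rw [mem_sdiff] at hd
    exact h1.2 (h.mem_WL_inner hX hY hc hd.1 (fun h3 => hd.2 (hA h3)) hce hde)
  · intro he
    rw [mem_inter, mem_sdiff] at he
    obtain ⟨⟨h1, h2⟩, h3⟩ := he
    unfold EL at h1 ⊢
    rw [mem_sdiff] at h1 ⊢
    refine ⟨h3, fun h4 => ?_⟩
    obtain ⟨n, hn1, hn2, hn3⟩ := mem_WL.1 h4
    have hs := side_isSide PC n
    by_cases hr : (PC.side n).1 + dir ((PC.side n).2 - 1) ∈ P.Q
    · refine h2 (mem_gs.2 ⟨_, mem_sdiff.2 ⟨hr, fun h5 => hs.2 (hcl _ hs.1 _ h5)⟩, ?_⟩)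
      exact sL_nb hX hY hn3
    · obtain ⟨k, hk, hk2⟩ := exists_side P (s := PC.side n) ⟨h.sub hs.1, hr⟩
      by_cases hkm : k < P.m
      · have := (h.free n hn2).2 ⟨k, hkm, hk2⟩
        omega
      · refine h1.2 (mem_WL.2 ⟨k, by omega, hk, ?_⟩)
        rw [sL_congr hk2]; exact hn3

/-- **UB1**: a vertex of a component which is connected to the wired arc of the domain is connected
inside the component to its wired arc. -/
theorem ub1 (h : SubT P PC) (hX : StrictMono X) (hY : StrictMono Y) {ω : Finset (ℤ × ℤ)}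
    (hω : ω ⊆ EL P X Y) {v : ℤ × ℤ} (hv : inV PC.Q X Y v) (hc : CT P X Y v ω) :
    ∃ t, TV PC X Y t ∧ Co (ω ∩ EL PC X Y) v t := by
  obtain ⟨t, ht, hvt⟩ := hc
  revert hv
  refine Relation.ReflTransGen.head_induction_on hvt ?_ ?_
  · intro hv
    refine ⟨t, ?_, Co.refl _ _⟩
    obtain ⟨k, hk1, hk2, hk3⟩ := ht
    by_cases h1 : (P.side k).1 ∈ PC.Q
    · obtain ⟨n, hn1, hn2, hn3⟩ := h.wired_outer hk1 hk2 h1
      exact ⟨n, hn1, hn2, (sV_congr hn3 t).2 hk3⟩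
    · obtain ⟨c, hc, hct⟩ := hv
      exact h.TV_inner hX hY hc (side_isSide P k).1 h1 hct hk3.1
  · intro u u' huu _ ih hu
    by_cases hTV : TV PC X Y u
    · exact ⟨u, hTV, Co.refl _ _⟩
    obtain ⟨c, hc, hcu⟩ := hu
    -- cells of `Q` containing `u` belong to the component
    have key : ∀ d ∈ P.Q, inRect X Y d u → d ∈ PC.Q := by
      intro d hd hdu
      by_contra h1
      exact hTV (h.TV_inner hX hY hc hd h1 hcu hdu)
    obtain ⟨hunit, hlab⟩ := huu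
    have hW : u + u' ∉ WL P X Y := by
      intro h1
      obtain ⟨k, hk1, hk2, hk3⟩ := mem_WL.1 h1
      have h2 := (ends_sL hunit hk3).1
      have h3 := key _ (side_isSide P k).1 h2.1
      obtain ⟨n, hn1, hn2, hn3⟩ := h.wired_outer hk1 hk2 h3
      exact hTV ⟨n, hn1, hn2, (sV_congr hn3 u).2 h2⟩
    have hω' : u + u' ∈ ω := by
      rcases mem_union.1 hlab with h1 | h1
      · exact h1
      · exact absurd h1 hW
    have h1 := hω hω'
    unfold EL at h1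
    rw [mem_sdiff] at h1
    obtain ⟨d, hd, hde⟩ := mem_gs.1 h1.1
    obtain ⟨hdu, hdu'⟩ := ends_gcell hunit hde
    have hdC := key d hd hdu
    have hWC : u + u' ∉ WL PC X Y := by
      intro h2
      obtain ⟨n, hn1, hn2, hn3⟩ := mem_WL.1 h2
      exact hTV ⟨n, hn1, hn2, (ends_sL hunit hn3).1⟩
    obtain ⟨t', ht', hct'⟩ := ih ⟨d, hdC, hdu'⟩
    refine ⟨t', ht', Relation.ReflTransGen.head ⟨hunit, ?_⟩ hct'⟩
    rw [mem_inter]
    refine ⟨hω', ?_⟩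
    unfold EL
    rw [mem_sdiff]
    exact ⟨mem_gs.2 ⟨d, hdC, hde⟩, hWC⟩

end SubT

/-- a component which meets the free arc in the sides `p ≤ n < q` -/
lemma SubT.of_interval {P PC : PType} {p q : ℕ} (hsub : PC.Q ⊆ P.Q) (hq : q ≤ P.m)
    (hm : PC.m = q - p) (hside : ∀ i < q - p, Eqv (PC.side i) (P.side (p + i)))
    (hint : ∀ n < P.m, (P.side n).1 ∈ PC.Q → p ≤ n ∧ n < q) : SubT P PC := by
  refine ⟨hsub, fun n hn => ⟨fun h => ⟨p + n, by omega, (hside n (by omega)).symm⟩, ?_⟩⟩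
  rintro ⟨k, hk, hk2⟩
  have h1 : (P.side k).1 ∈ PC.Q := by
    rw [hk2.1]; exact (side_isSide PC n).1
  obtain ⟨h2, h3⟩ := hint k hk h1
  have h4 := hside (k - p) (by omega)
  rw [show p + (k - p) = k by omega] at h4
  have h5 : k - p = n := by
    refine side_uniq PC ?_ hn (h4.trans hk2)
    have := PC.hmN
    omega
  omega

/-! ### Several components -/

/-- cells of `C` are not adjacent to other cells of `A` -/
def ClosedIn (A C : Finset Cell) : Prop :=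
  C ⊆ A ∧ ∀ c ∈ C, ∀ k : ℤ, c + dir k ∈ A → c + dir k ∈ C

/-- the labels of different components are disjoint -/
lemma gs_disjoint {X Y : ℤ → ℤ} (hX : StrictMono X) (hY : StrictMono Y) {A C C' : Finset Cell}
    (h : ClosedIn A C) (h' : ClosedIn A C') (hd : Disjoint C C') :
    Disjoint (gs X Y C) (gs X Y C') := by
  rw [disjoint_left]
  intro e he he'
  obtain ⟨c, hc, hce⟩ := mem_gs.1 he
  obtain ⟨d, hd', hde⟩ := mem_gs.1 he'
  have hcd : c ≠ d := by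
    rintro rfl
    exact disjoint_left.1 hd hc hd'
  obtain ⟨k, hk, -⟩ := gcell_inter hX hY hce hde hcd
  subst hk
  exact disjoint_left.1 hd (h.2 c hc _ (h'.1 hd')) hd'

lemma EL_disjoint {X Y : ℤ → ℤ} (hX : StrictMono X) (hY : StrictMono Y) {A : Finset Cell}
    {PC PC' : PType} (h : ClosedIn A PC.Q) (h' : ClosedIn A PC'.Q) (hd : Disjoint PC.Q PC'.Q) :
    Disjoint (EL PC X Y) (EL PC' X Y) :=
  (gs_disjoint hX hY h h' hd).mono sdiff_subset sdiff_subset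

/-- labels of a hull -/
noncomputable def LA (P : PType) (X Y : ℤ → ℤ) (A : Finset Cell) : Finset (ℤ × ℤ) :=
  EL P X Y \ gs X Y (P.Q \ A)

lemma LA_sub (P : PType) (X Y : ℤ → ℤ) (A : Finset Cell) : LA P X Y A ⊆ EL P X Y := sdiff_subset

lemma SubT.EL_sub_LA {P PC : PType} {X Y : ℤ → ℤ} (h : SubT P PC) (hX : StrictMono X)
    (hY : StrictMono Y) {A : Finset Cell} (hA : ClosedIn A PC.Q) : EL PC X Y ⊆ LA P X Y A := by
  rw [h.EL_eq hX hY hA.1 hA.2]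
  exact inter_subset_left

/-- **UB4**: product formula. -/
theorem Pr_comps {ι : Type*} [DecidableEq ι] {P : PType} {X Y : ℤ → ℤ} (hX : StrictMono X)
    (hY : StrictMono Y) {A : Finset Cell} (s : Finset ι) (PC : ι → PType)
    (hsub : ∀ a ∈ s, SubT P (PC a)) (hcl : ∀ a ∈ s, ClosedIn A (PC a).Q)
    (hd : ∀ a ∈ s, ∀ b ∈ s, a ≠ b → Disjoint (PC a).Q (PC b).Q)
    (Z : ι → Finset (ℤ × ℤ) → Prop) :
    Pr (LA P X Y A) (fun ω => ∀ a ∈ s, Z a (ω ∩ EL (PC a) X Y)) =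
      ∏ a ∈ s, Pr (EL (PC a) X Y) (Z a) := by
  have h := Pr_split_prod (LA P X Y A) (LA P X Y A) subset_rfl (fun _ => True) (fun _ _ => Iff.rfl)
    s (fun a => EL (PC a) X Y) (fun a ha => (hsub a ha).EL_sub_LA hX hY (hcl a ha))
    (fun a ha b hb hab => EL_disjoint hX hY (hcl a ha) (hcl b hb) (hd a ha b hb hab)) Z
  rw [Pr_true, one_mul] at h
  rw [← h]
  exact Pr_congr fun ω _ => by simp

end Pool.Agent.H76.Q1
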