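import Mathlib
import Pool.Agent.H44.Q1.C2
import Pool.Agent.H76.Q1.Comp
import Pool.Agent.H76.Q1.HullUp

set_option autoImplicit false
open Finset

/-! Step C2, finite upper and lower bound (StUB, StLB1). -/

namespace Pool.Agent.H76.Q1

open Pool.Agent.H75.Perc hiding WL UU
open Pool.Agent.H49.Q1 hiding sL
open Pool.Agent.Q1.M4 Pool.Agent.Q1.M5
open Pool.Agent.H44.Q1 (Hull Hs XA Ah BA kp XH UU GG Gap Marks StUB StLB1 Tri)

variable {P : PType} {X Y : ℤ → ℤ} {n1 : ℕ}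

lemma LA_mono {A A' : Finset Cell} (h : A ⊆ A') : H44.Q1.LA P X Y A ⊆ H44.Q1.LA P X Y A' := by
  unfold H44.Q1.LA
  exact sdiff_subset_sdiff subset_rfl (gs_mono (sdiff_subset_sdiff subset_rfl h))

lemma LA_sub' (A : Finset Cell) : H44.Q1.LA P X Y A ⊆ EL P X Y := sdiff_subset

lemma LA_empty : H44.Q1.LA P X Y ∅ = ∅ := by
  unfold H44.Q1.LA EL
  rw [sdiff_empty, sdiff_eq_empty_iff_subset]
  exact sdiff_subset

lemma XA_empty (ω : Finset (ℤ × ℤ)) : XA P X Y n1 ∅ ω ↔ CT P X Y (lv P X Y n1) ω := by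
  unfold XA
  rw [LA_empty, sdiff_empty]

lemma CT_mono {v : ℤ × ℤ} {ω ω' : Finset (ℤ × ℤ)} (h : ω ⊆ ω') (hc : CT P X Y v ω) :
    CT P X Y v ω' := by
  obtain ⟨t, ht, hvt⟩ := hc
  exact ⟨t, ht, Co.mono (union_subset_union h subset_rfl) hvt⟩

/-- **UB1 for a hull**: a vertex connected to the wired arc is connected inside the hull to the
wired arc or to the rest of the domain. -/
theorem BA_of_CT {A : Finset Cell} {ω : Finset (ℤ × ℤ)} (hω : ω ⊆ EL P X Y) {v : ℤ × ℤ}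
    (hc : CT P X Y v ω) : BA P X Y A v ω := by
  obtain ⟨t, ht, hvt⟩ := hc
  refine Relation.ReflTransGen.head_induction_on hvt ?_ ?_
  · exact ⟨t, Or.inl ht, Co.refl _ _⟩
  · intro u u' huu _ ih
    by_cases hu : TV P X Y u ∨ inV (P.Q \ A) X Y u
    · exact ⟨u, hu, Co.refl _ _⟩
    push Not at hu
    obtain ⟨hunit, hlab⟩ := huu
    have hW : u + u' ∉ WL P X Y := by
      intro h1
      obtain ⟨k, hk1, hk2, hk3⟩ := mem_WL.1 h1
      exact hu.1 ⟨k, hk1, hk2, (ends_sL hunit hk3).1⟩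
    have hω' : u + u' ∈ ω := by
      rcases mem_union.1 hlab with h1 | h1
      · exact h1
      · exact absurd h1 hW
    obtain ⟨z, hz, hzc⟩ := ih
    refine ⟨z, hz, Relation.ReflTransGen.head ⟨hunit, ?_⟩ hzc⟩
    rw [mem_inter]
    refine ⟨hω', ?_⟩
    unfold H44.Q1.LA
    rw [mem_sdiff]
    refine ⟨hω hω', fun h1 => hu.2 ?_⟩
    obtain ⟨d, hd, hde⟩ := mem_gs.1 h1
    exact ⟨d, hd, (ends_gcell hunit hde).1⟩

lemma BA_inter {A : Finset Cell} {ω : Finset (ℤ × ℤ)} {v : ℤ × ℤ} :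
    BA P X Y A v (ω ∩ H44.Q1.LA P X Y A) ↔ BA P X Y A v ω := by
  unfold BA
  rw [inter_assoc, inter_self]

/-- The hypothesis of this file: hulls avoided by the connection are stable under unions. -/
structure HullHyp (P : PType) (X Y : ℤ → ℤ) (n1 : ℕ) : Prop where
  fam : H78.Q1.HullFam (Hs P n1)
  lat : ∀ A ∈ Hs P n1, ∀ A' ∈ Hs P n1, ∀ ω, ω ⊆ EL P X Y → XA P X Y n1 A ω → XA P X Y n1 A' ω →
    XA P X Y n1 (A ∪ A') ω

namespace HullHyp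

lemma ev (h : HullHyp P X Y n1) : H78.Q1.HullEv (Hs P n1) (EL P X Y) (XA P X Y n1) :=
  ⟨fun _ _ _ _ hAA _ _ h1 => CT_mono (sdiff_subset_sdiff subset_rfl (LA_mono hAA)) h1, h.lat⟩

lemma mem (h : HullHyp P X Y n1) {ω : Finset (ℤ × ℤ)} (hω : ω ⊆ EL P X Y)
    (hc : CT P X Y (lv P X Y n1) ω) : Ah P X Y n1 ω ∈ Hs P n1 :=
  (H78.Q1.hull_mem h.fam h.ev hω ((XA_empty ω).2 hc)).1

lemma XH_iff (h : HullHyp P X Y n1) {A : Finset Cell} (hA : A ∈ Hs P n1) {ω : Finset (ℤ × ℤ)}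
    (hω : ω ⊆ EL P X Y) : XH P X Y n1 A ω ↔
      (XA P X Y n1 A ω ∧ ∀ S ∈ Hs P n1, A ⊂ S → ¬ XA P X Y n1 S ω) := by
  rw [← H78.Q1.hull_eq_iff h.fam h.ev hω hA, XA_empty]
  rfl

lemma loc (h : HullHyp P X Y n1) {A : Finset Cell} (hA : A ∈ Hs P n1) {ω : Finset (ℤ × ℤ)}
    (hω : ω ⊆ EL P X Y) : XH P X Y n1 A ω ↔ XH P X Y n1 A (ω \ H44.Q1.LA P X Y A) := by
  rw [h.XH_iff hA hω, h.XH_iff hA (sdiff_subset.trans hω)]
  have key : ∀ S, A ⊆ S → (XA P X Y n1 S ω ↔ XA P X Y n1 S (ω \ H44.Q1.LA P X Y A)) := by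
    intro S hS
    unfold XA
    rw [sdiff_sdiff_left, sup_eq_union, union_eq_right.2 (LA_mono hS)]
  refine and_congr (key A subset_rfl) (forall_congr' fun S => forall_congr' fun _ =>
    forall_congr' fun hlt => not_congr (key S hlt.1))

/-- **StUB for one hull family.** -/
theorem ub (h : HullHyp P X Y n1) (s : Finset ℕ) (K : ℕ → Finset Cell)
    (hK : ∀ l ∈ s, K l ∈ Hs P n1) :
    kp P X Y (insert n1 s) ≤ UU P X Y n1 s K + ∑ l ∈ s, Pr (EL P X Y)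
      (fun ω => (∀ n ∈ insert n1 s, CT P X Y (lv P X Y n) ω) ∧ ¬ XA P X Y n1 (K l) ω) := by
  classical
  have h1 := hull_upper (EL P X Y) (Hs P n1) (H44.Q1.LA P X Y) (Ah P X Y n1)
    (CT P X Y (lv P X Y n1)) (fun ω => ∀ n ∈ s, CT P X Y (lv P X Y n) ω)
    (fun A _ => LA_sub' A) (fun ω hω hc => h.mem hω hc) (fun A hA ω hω => h.loc hA hω)
    (fun A => ∀ i ∈ s, K i ⊆ A) s K
    (fun ω _ _ hg i hi => H78.Q1.subset_hull (hK i hi) (hg i hi))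
    (fun A ω => ∀ i ∈ s, BA P X Y A (lv P X Y i) ω)
    (fun A _ _ ω hω _ _ hY i hi => BA_inter.2 (BA_of_CT hω (hY i hi)))
  have e1 : kp P X Y (insert n1 s) = Pr (EL P X Y) (fun ω => CT P X Y (lv P X Y n1) ω ∧
      ∀ n ∈ s, CT P X Y (lv P X Y n) ω) := by
    unfold kp
    exact Pr_congr fun ω _ => by rw [forall_mem_insert]
  have e2 : ∀ l ∈ s, Pr (EL P X Y) (fun ω => (∀ n ∈ insert n1 s, CT P X Y (lv P X Y n) ω) ∧
      ¬ XA P X Y n1 (K l) ω) = Pr (EL P X Y) (fun ω => CT P X Y (lv P X Y n1) ω ∧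
      (∀ n ∈ s, CT P X Y (lv P X Y n) ω) ∧
      ¬ CT P X Y (lv P X Y n1) (ω \ H44.Q1.LA P X Y (K l))) := by
    intro l _
    refine Pr_congr fun ω _ => ?_
    rw [forall_mem_insert, and_assoc]
    rfl
  rw [e1, sum_congr rfl e2]
  refine h1.trans (le_of_eq ?_)
  congr 1

/-- **StLB1 for one hull family.** -/
theorem lb (h : HullHyp P X Y n1) (s : Finset ℕ) (K : ℕ → Finset Cell) :
    UU P X Y n1 s K ≤ kp P X Y (insert n1 s) + Pr (EL P X Y) (GG P X Y n1 s K) := by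
  classical
  have h1 := hull_sum_eq (EL P X Y) (Hs P n1) (H44.Q1.LA P X Y) (Ah P X Y n1)
    (CT P X Y (lv P X Y n1)) (fun A _ => LA_sub' A) (fun A hA ω hω => h.loc hA hω)
    (fun A => ∀ i ∈ s, K i ⊆ A) (fun A ω => ∀ i ∈ s, BA P X Y A (lv P X Y i) ω)
  have e1 : UU P X Y n1 s K = ∑ A ∈ Hs P n1 with (∀ i ∈ s, K i ⊆ A),
      Pr (EL P X Y) (fun ω => CT P X Y (lv P X Y n1) ω ∧ Ah P X Y n1 ω = A) *
        Pr (H44.Q1.LA P X Y A) (fun ω => ∀ i ∈ s, BA P X Y A (lv P X Y i) ω) := by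
    unfold UU
    congr 1
  rw [e1, h1]
  unfold kp
  refine (Pr_mono fun ω _ h2 => ?_).trans (Pr_or_le (EL P X Y) _ _)
  obtain ⟨h3, _, h5, h6⟩ := h2
  by_cases h7 : ∀ l ∈ s, CT P X Y (lv P X Y l) ω
  · left
    rw [forall_mem_insert]
    exact ⟨h3, h7⟩
  · right
    exact ⟨h3, h5, fun l hl => BA_inter.1 (h6 l hl), h7⟩

end HullHyp

/-- Hulls avoided by the connection are stable under unions (helper78). -/
def StLAT (g0 : ℤ) : Prop := ∀ (P : PType) (X Y : ℤ → ℤ), Tri P.Q → Gap P.Q X Y g0 →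
  ∀ n1 : ℕ, FlatV P n1 → HullHyp P X Y n1

theorem StUB_of {g0 : ℤ} (h : StLAT g0) : StUB g0 :=
  fun P X Y hT hG n1 s K hM hK => (h P X Y hT hG n1 hM.1).ub s K hK

theorem StLB1_of {g0 : ℤ} (h : StLAT g0) : StLB1 g0 :=
  fun P X Y hT hG n1 s K hM _ => (h P X Y hT hG n1 hM.1).lb s K

end Pool.Agent.H76.Q1
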