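import Mathlib
import Pool.Agent.H76.Q1.C2Fin
import Pool.Agent.H78.Q1.Comp
import Pool.Agent.H44.Q1.C2Asm

set_option autoImplicit false
open Finset Filter Topology

/-! Step C2, convergence of the main term (StU5). -/

namespace Pool.Agent.H76.Q1

open Pool.Agent.H75.Perc hiding WL UU
open Pool.Agent.H49.Q1 hiding sL
open Pool.Agent.Q1.M4 Pool.Agent.Q1.M5
open Pool.Agent.H44.Q1 (Hull Hs XA Ah BA kp XH UU GG Gap Marks StUB StLB1 Tri StC2k StC1 StU5)
open Pool.Agent.H78.Q1 (G3 Sat comp Rch comp_sub comp_eq comp_adj comp_rch self_mem_comp)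

variable {P : PType} {X Y : ℤ → ℤ} {n1 : ℕ}

lemma CT_stop {v : ℤ × ℤ} {ω : Finset (ℤ × ℤ)} (h : CT P X Y v ω) :
    ∃ t, TV P X Y t ∧ Co ω v t := by
  obtain ⟨t, ht, hvt⟩ := h
  refine Relation.ReflTransGen.head_induction_on hvt ⟨t, ht, Co.refl _ _⟩ ?_
  intro u u' huu _ ih
  by_cases hu : TV P X Y u
  · exact ⟨u, hu, Co.refl _ _⟩
  obtain ⟨hunit, hlab⟩ := huu
  have hω' : u + u' ∈ ω := by
    rcases mem_union.1 hlab with h1 | h1
    · exact h1
    · obtain ⟨k, hk1, hk2, hk3⟩ := mem_WL.1 h1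
      exact absurd ⟨k, hk1, hk2, (ends_sL hunit hk3).1⟩ hu
  obtain ⟨z, hz, hzc⟩ := ih
  exact ⟨z, hz, Relation.ReflTransGen.head ⟨hunit, hω'⟩ hzc⟩

lemma CT_of_stop {v t : ℤ × ℤ} {ω : Finset (ℤ × ℤ)} (ht : TV P X Y t) (h : Co ω v t) :
    CT P X Y v ω := ⟨t, ht, Co.mono subset_union_left h⟩

lemma sV_nb (hX : StrictMono X) (hY : StrictMono Y) {s : Cell × ℤ} {v : ℤ × ℤ}
    (h : sV X Y s v) : inRect X Y (s.1 + dir (s.2 - 1)) v := by
  obtain ⟨⟨c1, c2⟩, k⟩ := s
  unfold sV onCell inB at h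
  obtain ⟨h0, h1, h2, h3, h4⟩ := h
  unfold inRect
  simp only at *
  have a1 := hX (show c1 - 1 < c1 by omega)
  have a2 := hX (show c1 < c1 + 1 by omega)
  have a3 := hX (show c1 + 1 < c1 + 1 + 1 by omega)
  have b1 := hY (show c2 - 1 < c2 by omega)
  have b2 := hY (show c2 < c2 + 1 by omega)
  have b3 := hY (show c2 + 1 < c2 + 1 + 1 by omega)
  rcases dir_cases (k - 1) with ⟨g, e⟩ | ⟨g, e⟩ | ⟨g, e⟩ | ⟨g, e⟩ <;> rw [e] <;>
    simp only [Prod.mk_add_mk, add_zero]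
  · have := h2 (by omega)
    omega
  · have := h3 (by omega)
    omega
  · have := h4 (by omega)
    rw [show c1 + -1 + 1 = c1 by ring, show c1 + -1 = c1 - 1 by ring]
    omega
  · have := h1 (by omega)
    rw [show c2 + -1 + 1 = c2 by ring, show c2 + -1 = c2 - 1 by ring]
    omega

lemma inRect_tail (hX : StrictMono X) (hY : StrictMono Y) (s : Cell × ℤ) :
    inRect X Y s.1 (lpt X Y (tail s)) := by
  obtain ⟨⟨a, b⟩, k⟩ := s
  have h1 := hX (show a < a + 1 by omega)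
  have h2 := hY (show b < b + 1 by omega)
  unfold tail lpt inRect
  simp only
  split_ifs <;> simp only [Prod.mk_add_mk, add_zero] <;> omega

lemma inRect_lv (hX : StrictMono X) (hY : StrictMono Y) (n : ℕ) :
    inRect X Y (P.side n).1 (lv P X Y n) := inRect_tail hX hY _

/-- a wired vertex of a component is wired in the domain or a vertex of the rest -/
lemma SubT.TV_out {PC : PType} (h : SubT P PC) (hX : StrictMono X) (hY : StrictMono Y)
    {A : Finset Cell} (hA : ClosedIn A PC.Q) {v : ℤ × ℤ} (hv : TV PC X Y v) :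
    TV P X Y v ∨ inV (P.Q \ A) X Y v := by
  obtain ⟨n, hn1, hn2, hn3⟩ := hv
  have hs := side_isSide PC n
  by_cases hr : (PC.side n).1 + dir ((PC.side n).2 - 1) ∈ P.Q
  · right
    refine ⟨_, Finset.mem_sdiff.2 ⟨hr, fun h5 => hs.2 (hA.2 _ hs.1 _ h5)⟩, sV_nb hX hY hn3⟩
  · left
    obtain ⟨k, hk, hk2⟩ := exists_side P (s := PC.side n) ⟨h.sub hs.1, hr⟩
    by_cases hkm : k < P.m
    · have := (h.free n hn2).2 ⟨k, hkm, hk2⟩
      omega
    · exact ⟨k, by omega, hk, (sV_congr hk2 v).2 hn3⟩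

lemma SubT.TV_in {PC : PType} (h : SubT P PC) (hX : StrictMono X) (hY : StrictMono Y)
    {A : Finset Cell} (hA : PC.Q ⊆ A) {v : ℤ × ℤ} (hv : inV PC.Q X Y v)
    (ht : TV P X Y v ∨ inV (P.Q \ A) X Y v) : TV PC X Y v := by
  obtain ⟨c, hc, hct⟩ := hv
  rcases ht with ⟨k, hk1, hk2, hk3⟩ | ⟨d, hd, hdv⟩
  · by_cases h1 : (P.side k).1 ∈ PC.Q
    · obtain ⟨n, hn1, hn2, hn3⟩ := h.wired_outer hk1 hk2 h1
      exact ⟨n, hn1, hn2, (sV_congr hn3 v).2 hk3⟩
    · exact h.TV_inner hX hY hc (side_isSide P k).1 h1 hct hk3.1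
  · rw [Finset.mem_sdiff] at hd
    exact h.TV_inner hX hY hc hd.1 (fun h1 => hd.2 (hA h1)) hct hdv

/-- **Connections inside a hull are connections inside the component.** -/
theorem SubT.BA_iff {PC : PType} (h : SubT P PC) (hX : StrictMono X) (hY : StrictMono Y)
    {A : Finset Cell} (hA : ClosedIn A PC.Q) {v : ℤ × ℤ} (hv : inV PC.Q X Y v)
    (ω : Finset (ℤ × ℤ)) : BA P X Y A v ω ↔ CT PC X Y v (ω ∩ EL PC X Y) := by
  constructor
  · rintro ⟨z, hz, hzc⟩
    have key : ∃ t, TV PC X Y t ∧ Co (ω ∩ EL PC X Y) v t := by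
      revert hv
      refine Relation.ReflTransGen.head_induction_on hzc ?_ ?_
      · intro hv
        exact ⟨z, h.TV_in hX hY hA.1 hv hz, Co.refl _ _⟩
      · intro u u' huu _ ih hu
        by_cases hTV : TV PC X Y u
        · exact ⟨u, hTV, Co.refl _ _⟩
        obtain ⟨c, hc, hcu⟩ := hu
        have key : ∀ d ∈ P.Q, inRect X Y d u → d ∈ PC.Q := by
          intro d hd hdu
          by_contra h1
          exact hTV (h.TV_inner hX hY hc hd h1 hcu hdu)
        obtain ⟨hunit, hlab⟩ := huu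
        rw [mem_inter] at hlab

        have h2 : u + u' ∈ EL P X Y := (LA_sub' A) hlab.2
        unfold EL at h2
        rw [Finset.mem_sdiff] at h2
        obtain ⟨d, hd, hde⟩ := mem_gs.1 h2.1
        obtain ⟨hdu, hdu'⟩ := ends_gcell hunit hde
        have hdC := key d hd hdu
        have hWC : u + u' ∉ WL PC X Y := by
          intro h2
          obtain ⟨n, hn1, hn2, hn3⟩ := mem_WL.1 h2
          exact hTV ⟨n, hn1, hn2, (ends_sL hunit hn3).1⟩
        obtain ⟨t', ht', hct'⟩ := ih ⟨d, hdC, hdu'⟩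
        refine ⟨t', ht', Relation.ReflTransGen.head ⟨hunit, ?_⟩ hct'⟩
        rw [mem_inter]
        refine ⟨hlab.1, ?_⟩
        unfold EL
        rw [Finset.mem_sdiff]
        exact ⟨mem_gs.2 ⟨d, hdC, hde⟩, hWC⟩
    obtain ⟨t, ht, htc⟩ := key
    exact CT_of_stop ht htc
  · intro hc
    obtain ⟨t, ht, htc⟩ := CT_stop hc
    exact ⟨t, h.TV_out hX hY hA ht,
      Co.mono (inter_subset_inter subset_rfl (h.EL_sub_LA hX hY hA)) htc⟩

/-! ### Components of a regular hull -/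

/-- Data of the component `C`. -/
structure CompOf (P PC : PType) (p q : ℕ) (C : Finset Cell) : Prop where
  Q : PC.Q = C
  pq : p < q
  qm : q ≤ P.m
  m : PC.m = q - p
  side : ∀ i < q - p, PC.side i = P.side (p + i)
  int : ∀ n < P.m, ((P.side n).1 ∈ C ↔ p ≤ n ∧ n < q)

lemma CompOf.subT {PC : PType} {p q : ℕ} {C : Finset Cell} (h : CompOf P PC p q C)
    (hC : C ⊆ P.Q) : SubT P PC :=
  SubT.of_interval (by rw [h.Q]; exact hC) h.qm h.m
    (fun i hi => by rw [h.side i hi]; exact Eqv.refl _)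
    (fun n hn h1 => (h.int n hn).1 (by rw [← h.Q]; exact h1))

lemma CompOf.lv_eq {PC : PType} {p q : ℕ} {C : Finset Cell} (h : CompOf P PC p q C) {i : ℕ}
    (h1 : p ≤ i) (h2 : i ≤ q) : lv PC X Y (i - p) = lv P X Y i := by
  unfold lv
  rw [H78.Q1.vert_eq h.pq h.side (i - p) (by omega), show p + (i - p) = i by omega]

lemma CompOf.flat {PC : PType} {p q : ℕ} {C : Finset Cell} (h : CompOf P PC p q C) {i : ℕ}
    (h1 : p < i) (h2 : i < q) (hf : FlatV P i) : FlatV PC (i - p) := by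
  refine ⟨by omega, by rw [h.m]; omega, ?_⟩
  rw [h.side _ (by omega), h.side _ (by omega), show p + (i - p - 1) = i - 1 by omega,
    show p + (i - p) = i by omega]
  exact hf.2.2

lemma closedIn_comp {A : Finset Cell} (c : Cell) : ClosedIn A (comp A c) :=
  ⟨comp_sub _ _, fun _ hd k he => comp_adj hd ⟨k, rfl⟩ he⟩

lemma comp_disj {A : Finset Cell} {c d : Cell} (hc : c ∈ A) (hd : d ∈ A)
    (h : comp A c ≠ comp A d) : Disjoint (comp A c) (comp A d) := by
  rw [disjoint_left]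
  intro x hx hx'
  exact h ((comp_eq hc hx).symm.trans (comp_eq hd hx'))

/-- Every component of a regular hull is a type. -/
lemma exists_compOf {A : Finset Cell} (h3 : G3 P.Q) (hR : H78.Q1.Reg P n1 A) {c : Cell}
    (hc : c ∈ A) : ∃ (PC : PType) (p q : ℕ), CompOf P PC p q (comp A c) := by
  obtain ⟨PC, p, q, -, h2, h3, h4, -, h6, h7, h8⟩ := hR.exists_type h3 hc
  exact ⟨PC, p, q, h4, h2, h3, h6, h7, h8⟩

/-- The two cells at a flat vertex belong to the same component. -/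
lemma comp_prev {A : Finset Cell} (h3 : G3 P.Q) (hR : H78.Q1.Reg P n1 A) {i : ℕ} (hi : 0 < i)
    (h1 : (P.side (i - 1)).1 ∈ A) (h2 : (P.side i).1 ∈ A) :
    (P.side (i - 1)).1 ∈ comp A (P.side i).1 := by
  obtain ⟨j, rfl⟩ : ∃ j, i = j + 1 := ⟨i - 1, by omega⟩
  rw [Nat.add_sub_cancel] at h1 ⊢
  have h4 := H78.Q1.consec P.good h3 hR.hull.sat (H78.Q1.isSide_side P j) h1
    (by rw [← H78.Q1.side_succ]; exact h2)
  rw [← H78.Q1.side_succ] at h4
  exact (comp_rch (self_mem_comp h2) (h4.symm h1)).1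

/-- The probability inside a regular hull is a product of `k`-point functions of the components. -/
theorem reg_prod {A : Finset Cell} (h3 : G3 P.Q) (hR : H78.Q1.Reg P n1 A) {s : Finset ℕ}
    (hf : ∀ i ∈ s, FlatV P i) (hs : ∀ i ∈ s, (P.side (i - 1)).1 ∈ A ∧ (P.side i).1 ∈ A) :
    ∃ (T : Finset Cell → PType) (S : Finset Cell → Finset ℕ),
      (∀ C ∈ s.image (fun i => comp A (P.side i).1), ∀ n ∈ S C, FlatV (T C) n) ∧
      (∀ C ∈ s.image (fun i => comp A (P.side i).1), (S C).card ≤ s.card) ∧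
      (∑ C ∈ s.image (fun i => comp A (P.side i).1), (S C).card = s.card) ∧
      ∀ X Y : ℤ → ℤ, StrictMono X → StrictMono Y →
        Pr (H44.Q1.LA P X Y A) (fun ω => ∀ i ∈ s, BA P X Y A (lv P X Y i) ω) =
          ∏ C ∈ s.image (fun i => comp A (P.side i).1), kp (T C) X Y (S C) := by
  classical
  set I := s.image (fun i => comp A (P.side i).1) with hI
  have hIc : ∀ C ∈ I, ∃ c ∈ A, C = comp A c := by
    intro C hC
    obtain ⟨i, hi, rfl⟩ := Finset.mem_image.1 hC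
    exact ⟨_, (hs i hi).2, rfl⟩
  have hex : ∀ C ∈ I, ∃ (PC : PType) (p q : ℕ), CompOf P PC p q C := by
    intro C hC
    obtain ⟨c, hc, rfl⟩ := hIc C hC
    exact exists_compOf h3 hR hc
  have : Nonempty PType := ⟨P⟩
  choose! T p q hT using hex
  have hsubA : ∀ C ∈ I, C ⊆ A := by
    intro C hC
    obtain ⟨c, hc, rfl⟩ := hIc C hC
    exact comp_sub _ _
  have hcl : ∀ C ∈ I, ClosedIn A (T C).Q := by
    intro C hC
    rw [(hT C hC).Q]
    obtain ⟨c, hc, rfl⟩ := hIc C hC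
    exact closedIn_comp c
  have hST : ∀ C ∈ I, SubT P (T C) := fun C hC =>
    (hT C hC).subT ((hsubA C hC).trans hR.hull.sat.sub)
  have hdis : ∀ C ∈ I, ∀ C' ∈ I, C ≠ C' → Disjoint (T C).Q (T C').Q := by
    intro C hC C' hC' hne
    rw [(hT C hC).Q, (hT C' hC').Q]
    obtain ⟨c, hc, rfl⟩ := hIc C hC
    obtain ⟨c', hc', rfl⟩ := hIc C' hC'
    exact comp_disj hc hc' hne
  -- position of the marked vertices
  have hpos : ∀ i ∈ s, p (comp A (P.side i).1) < i ∧ i < q (comp A (P.side i).1) := by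
    intro i hi
    have hC : comp A (P.side i).1 ∈ I := Finset.mem_image_of_mem _ hi
    have hfl := hf i hi
    have h1 := ((hT _ hC).int i hfl.2.1).1 (self_mem_comp (hs i hi).2)
    have h2 := ((hT _ hC).int (i - 1) (by have := hfl.2.1; omega)).1
      (comp_prev h3 hR hfl.1 (hs i hi).1 (hs i hi).2)
    have := hfl.1
    omega
  set S : Finset Cell → Finset ℕ := fun C =>
    (s.filter (fun i => comp A (P.side i).1 = C)).image (fun i => i - p C) with hS
  have hcard : ∀ C ∈ I, (S C).card = (s.filter (fun i => comp A (P.side i).1 = C)).card := by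
    intro C _
    refine Finset.card_image_of_injOn ?_
    intro i hi j hj hij
    simp only [Finset.coe_filter, Set.mem_ofPred_eq] at hi hj hij
    have h1 := hpos i hi.1
    have h2 := hpos j hj.1
    rw [hi.2] at h1
    rw [hj.2] at h2
    omega
  refine ⟨T, S, ?_, ?_, ?_, ?_⟩
  · intro C hC n hn
    obtain ⟨i, hi, rfl⟩ := Finset.mem_image.1 hn
    rw [Finset.mem_filter] at hi
    have h1 := hpos i hi.1
    rw [hi.2] at h1
    exact (hT C hC).flat h1.1 h1.2 (hf i hi.1)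
  · intro C hC
    rw [hcard C hC]
    exact Finset.card_filter_le _ _
  · rw [sum_congr rfl hcard]
    exact (Finset.card_eq_sum_card_image (fun i => comp A (P.side i).1) s).symm
  · intro X Y hX hY
    have h1 := Pr_comps hX hY (A := A) I T hST hcl hdis
      (fun C ω => ∀ n ∈ S C, CT (T C) X Y (lv (T C) X Y n) ω)
    unfold kp
    rw [← h1]
    refine Pr_congr fun ω _ => ?_
    have key : ∀ i ∈ s, ∀ C ∈ I, comp A (P.side i).1 = C →
        (BA P X Y A (lv P X Y i) ω ↔ CT (T C) X Y (lv (T C) X Y (i - p C)) (ω ∩ EL (T C) X Y)) := by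
      intro i hi C hC hiC
      have h2 := hpos i hi
      rw [hiC] at h2
      rw [(hT C hC).lv_eq h2.1.le h2.2.le]
      refine (hST C hC).BA_iff hX hY (hcl C hC) ⟨(P.side i).1, ?_, inRect_lv hX hY i⟩ ω
      rw [(hT C hC).Q, ← hiC]
      exact self_mem_comp (hs i hi).2
    constructor
    · intro h C hC n hn
      obtain ⟨i, hi, rfl⟩ := Finset.mem_image.1 hn
      rw [Finset.mem_filter] at hi
      exact (key i hi.1 C hC hi.2).1 (h i hi.1)
    · intro h i hi
      have hC : comp A (P.side i).1 ∈ I := Finset.mem_image_of_mem _ hi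
      exact (key i hi _ hC rfl).2 (h _ hC _ (Finset.mem_image.2
        ⟨i, Finset.mem_filter.2 ⟨hi, rfl⟩, rfl⟩))

/-- Convergence of the normalised probability inside a regular hull. -/
theorem reg_factor {pz : ℝ → ℝ} {A : Finset Cell} (h3 : G3 P.Q) (hR : H78.Q1.Reg P n1 A)
    {s : Finset ℕ} (hf : ∀ i ∈ s, FlatV P i)
    (hs : ∀ i ∈ s, (P.side (i - 1)).1 ∈ A ∧ (P.side i).1 ∈ A)
    (hI : ∀ k ≤ s.card, StC2k pz k) {x y : ℤ → ℝ} (hx : StrictMono x) (hy : StrictMono y) :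
    ∃ g : ℝ, ∀ (R : ℕ → ℝ) (X Y : ℕ → ℤ → ℤ), App x y R X Y → Tendsto (fun j =>
      Pr (H44.Q1.LA P (X j) (Y j) A) (fun ω => ∀ i ∈ s,
        BA P (X j) (Y j) A (lv P (X j) (Y j) i) ω) / pz (R j) ^ s.card) atTop (𝓝 g) := by
  classical
  obtain ⟨T, S, h1, h2, h4, h5⟩ := reg_prod h3 hR hf hs
  set I := s.image (fun i => comp A (P.side i).1) with hIdef
  have hex : ∀ C ∈ I, ∃ g : ℝ, ∀ (R : ℕ → ℝ) (X Y : ℕ → ℤ → ℤ), App x y R X Y →
      Tendsto (fun j => kp (T C) (X j) (Y j) (S C) / pz (R j) ^ (S C).card) atTop (𝓝 g) :=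
    fun C hC => hI _ (h2 C hC) (T C) x y hx hy (S C) (h1 C hC) rfl
  choose! g hg using hex
  refine ⟨∏ C ∈ I, g C, fun R X Y hA => ?_⟩
  have h6 := tendsto_finsetProd I (fun C hC => hg C hC R X Y hA)
  refine h6.congr' ?_
  filter_upwards [hA.mono] with j hj
  rw [h5 _ _ hj.1 hj.2, prod_div_distrib, prod_pow_eq_pow_sum, h4]

/-- Hulls which occur are regular (helper78). -/
def StADM (g0 : ℤ) : Prop := ∀ (P : PType) (X Y : ℤ → ℤ), Tri P.Q → Gap P.Q X Y g0 →
  ∀ n1 : ℕ, FlatV P n1 → ∀ A ∈ Hs P n1, ∀ ω, ω ⊆ EL P X Y → XH P X Y n1 A ω →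
    H78.Q1.Reg P n1 A

lemma Tri.g3 {Q : Finset Cell} (h : Tri Q) : G3 Q := by
  intro a b hab
  exact h a b (fun h0 => hab (Int.dvd_of_emod_eq_zero h0))

/-- **StU5.** -/
theorem StU5_of {pz : ℝ → ℝ} {g0 : ℤ} (hC1 : StC1 pz) (hADM : StADM g0) : StU5 pz := by
  classical
  intro P x y hx hy hT n1 s K hM hK hI
  have hex : ∀ A ∈ (Hs P n1).filter (fun A => ∀ i ∈ s, K i ⊆ A), ∃ g : ℝ,
      ∀ (R : ℕ → ℝ) (X Y : ℕ → ℤ → ℤ), App x y R X Y →
      Tendsto (fun j => Pr (EL P (X j) (Y j)) (XH P (X j) (Y j) n1 A) *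
        Pr (H44.Q1.LA P (X j) (Y j) A) (fun ω => ∀ i ∈ s,
          BA P (X j) (Y j) A (lv P (X j) (Y j) i) ω) / pz (R j) ^ (s.card + 1)) atTop (𝓝 g) := by
    intro A hA
    rw [Finset.mem_filter] at hA
    by_cases hR : H78.Q1.Reg P n1 A
    · obtain ⟨g1, hg1⟩ := hC1 P x y hx hy hT n1 hM.1 A hA.1
      obtain ⟨g2, hg2⟩ := reg_factor (pz := pz) (Tri.g3 hT) hR (fun i hi => (hM.2 i hi).1)
        (fun i hi => ⟨hA.2 i hi (hK i hi).2.1, hA.2 i hi (hK i hi).2.2⟩) hI hx hy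
      refine ⟨g1 * g2, fun R X Y hApp => ?_⟩
      refine ((hg1 R X Y hApp).mul (hg2 R X Y hApp)).congr fun j => ?_
      rw [div_mul_div_comm, pow_succ, mul_comm (pz (R j))]
    · refine ⟨0, fun R X Y hApp => ?_⟩
      refine Tendsto.congr' ?_ tendsto_const_nhds
      filter_upwards [H44.Q1.gap_ev hx hy P.Q g0 hApp] with j hj
      have h0 : Pr (EL P (X j) (Y j)) (XH P (X j) (Y j) n1 A) = 0 := by
        have h1 : Pr (EL P (X j) (Y j)) (XH P (X j) (Y j) n1 A) =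
            Pr (EL P (X j) (Y j)) (fun _ => False) :=
          Pr_congr fun ω hω => ⟨fun h => hR (hADM P _ _ hT hj n1 hM.1 A hA.1 ω hω h), False.elim⟩
        rw [h1]
        unfold Pr
        simp
      rw [h0, zero_mul, zero_div]
  choose! g hg using hex
  refine ⟨∑ A ∈ (Hs P n1).filter (fun A => ∀ i ∈ s, K i ⊆ A), g A, fun R X Y hApp => ?_⟩
  have h1 := tendsto_finsetSum ((Hs P n1).filter (fun A => ∀ i ∈ s, K i ⊆ A))
    (fun A hA => hg A hA R X Y hApp)
  refine h1.congr fun j => ?_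
  unfold H44.Q1.UU
  rw [Finset.sum_div]

end Pool.Agent.H76.Q1
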