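import Mathlib

set_option autoImplicit false
open Finset Filter Topology

/-! Moebius inversion of limits on a finite family of sets: if all `∑_{B ⊇ A} F j B` converge, all `F j A`
converge. -/

namespace Pool.Agent.H76.Q1

theorem moebius_tendsto {κ : Type*} [DecidableEq κ] (H : Finset (Finset κ))
    (F G : ℕ → Finset κ → ℝ)
    (h : ∀ᶠ j in atTop, ∀ A ∈ H, G j A = ∑ B ∈ H with A ⊆ B, F j B)
    (hG : ∀ A ∈ H, ∃ g, Tendsto (fun j => G j A) atTop (𝓝 g)) :
    ∀ A ∈ H, ∃ f, Tendsto (fun j => F j A) atTop (𝓝 f) := by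
  have key : ∀ n : ℕ, ∀ A ∈ H, (H.filter (fun B => A ⊂ B)).card = n →
      ∃ f, Tendsto (fun j => F j A) atTop (𝓝 f) := by
    intro n
    induction n using Nat.strong_induction_on with
    | _ n ih =>
      intro A hA hn
      have hB : ∀ B ∈ H.filter (fun B => A ⊂ B), ∃ f, Tendsto (fun j => F j B) atTop (𝓝 f) := by
        intro B hB
        rw [mem_filter] at hB
        refine ih _ ?_ B hB.1 rfl
        rw [← hn]
        apply card_lt_card
        rw [ssubset_iff_of_subset]
        · exact ⟨B, mem_filter.2 hB, fun h1 => (ssubset_irrefl B) (mem_filter.1 h1).2⟩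
        · intro D hD
          rw [mem_filter] at hD ⊢
          exact ⟨hD.1, hB.2.trans hD.2⟩
      choose! f hf using hB
      obtain ⟨g, hg⟩ := hG A hA
      refine ⟨g - ∑ B ∈ H with A ⊂ B, f B, ?_⟩
      have h1 : Tendsto (fun j => G j A - ∑ B ∈ H with A ⊂ B, F j B) atTop
          (𝓝 (g - ∑ B ∈ H with A ⊂ B, f B)) :=
        hg.sub (tendsto_finsetSum _ fun B hB => hf B hB)
      refine h1.congr' ?_
      filter_upwards [h] with j hj
      rw [hj A hA]
      have h2 : H.filter (fun B => A ⊆ B) = insert A (H.filter (fun B => A ⊂ B)) := by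
        ext B
        rw [mem_insert, mem_filter, mem_filter]
        constructor
        · rintro ⟨h3, h4⟩
          rcases eq_or_ssubset_of_subset h4 with h5 | h5
          · exact Or.inl h5.symm
          · exact Or.inr ⟨h3, h5⟩
        · rintro (rfl | ⟨h3, h4⟩)
          · exact ⟨hA, subset_rfl⟩
          · exact ⟨h3, h4.subset⟩
      rw [h2, sum_insert (fun h3 => (ssubset_irrefl A) (mem_filter.1 h3).2)]
      ring
  intro A hA
  exact key _ A hA rfl

end Pool.Agent.H76.Q1
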