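import Mathlib
import Pool.Agent.H76.Q1.C2Lim
import Pool.Agent.H78.Q1.RootId

set_option autoImplicit false
open Finset

/-! Step C2: hulls which occur are regular (StADM from StLAT). -/

namespace Pool.Agent.H76.Q1

open Pool.Agent.H75.Perc hiding WL UU tau
open Pool.Agent.H49.Q1 hiding sL
open Pool.Agent.Q1.M4 Pool.Agent.Q1.M5
open Pool.Agent.H44.Q1 (Hull Hs XA Ah BA kp XH UU GG Gap Marks StUB StLB1 Tri StC2k StC1 StU5)
open Pool.Agent.H78.Q1 (G3 Sat comp Rch comp_sub comp_eq comp_adj comp_rch self_mem_comp tau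
  rootC exit_comp tile_conn IsHull mem_comp)

variable {P : PType} {X Y : ℤ → ℤ} {n1 : ℕ}

lemma mem_Hs {A : Finset Cell} : A ∈ Hs P n1 ↔ IsHull P n1 A := by
  classical
  unfold Hs
  rw [mem_filter, mem_powerset]
  exact ⟨fun h => h.2, fun h => ⟨h.sat.sub, h⟩⟩

/-- A hull which occurs has a connected complement. -/
theorem adm {hH : HullHyp P X Y n1} (h3 : G3 P.Q) (hX : StrictMono X) (hY : StrictMono Y)
    (hf : FlatV P n1) {A : Finset Cell} (hA : A ∈ Hs P n1) {ω : Finset (ℤ × ℤ)}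
    (hω : ω ⊆ EL P X Y) (h : XH P X Y n1 A ω) : H78.Q1.Reg P n1 A := by
  classical
  obtain ⟨hXA, hmax⟩ := (hH.XH_iff hA hω).1 h
  have hI : IsHull P n1 A := mem_Hs.1 hA
  have hv : inRect X Y (P.side n1).1 (lv P X Y n1) := inRect_lv hX hY n1
  obtain ⟨t, ht1, ht2, ht3⟩ := hI.wired_of_avoid h3 hX hY hv hω hXA
  have hroot : rootC P n1 A ⊆ P.Q \ A := comp_sub _ _
  refine ⟨hI, ?_, t, ht1, ht2, (mem_sdiff.1 (hroot ht3)).2⟩
  -- it is enough that every cell of the complement is in the root component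
  by_contra hcon
  have hex : ∃ d ∈ P.Q \ A, d ∉ rootC P n1 A := by
    by_contra hall
    push Not at hall
    apply hcon
    have h1 : P.Q \ A = rootC P n1 A := subset_antisymm hall hroot
    rw [h1]
    exact H78.Q1.comp_conn hI.root_mem
  obtain ⟨d, hd, hdr⟩ := hex
  have hdisj : ∀ z ∈ comp (P.Q \ A) d, z ∉ rootC P n1 A := by
    intro z hz hz'
    apply hdr
    have e1 := comp_eq hd hz
    have e2 := comp_eq hI.root_mem hz'
    have e3 : comp (P.Q \ A) d = rootC P n1 A := e1.symm.trans e2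
    rw [← e3]
    exact self_mem_comp hd
  have hne : (P.side n1).1 ∉ comp (P.Q \ A) d := fun hc => hdisj _ hc (self_mem_comp hI.root_mem)
  obtain ⟨x, y, hx, hxy, hyQ, hyS⟩ := exit_comp P.good.conn sdiff_subset hd
    (side_isSide P n1).1 hne
  have hyA : y ∈ A := by
    by_contra hyA
    exact hyS (mem_sdiff.2 ⟨hyQ, hyA⟩)
  have hxS := comp_sub _ _ hx
  obtain ⟨hxQ, hxA⟩ := mem_sdiff.1 hxS
  set T := P.Q.filter (fun c => tau c = tau x) with hT
  have hTA : ∀ c ∈ T, c ∉ A := by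
    intro c hc hcA
    rw [hT, mem_filter] at hc
    exact hxA (hI.sat.sat _ hcA _ hxQ hc.2.symm)
  have hpath : ∀ c ∈ T, Rch (T : Set Cell) x c := by
    intro c hc
    have hc' := hc
    rw [hT, mem_filter] at hc'
    refine Rch.mono (tile_conn h3 hxQ hc'.1 hc'.2) ?_
    intro z hz
    rw [hT]
    exact mem_coe.2 (mem_filter.2 hz)
  have hTc : ∀ c ∈ T, c ∈ comp (P.Q \ A) d := by
    intro c hc
    refine (comp_rch hx ((hpath c hc).mono ?_)).1
    intro z hz
    have hz' := mem_coe.1 hz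
    have hz2 := hz'
    rw [hT, mem_filter] at hz2
    exact mem_coe.2 (mem_sdiff.2 ⟨hz2.1, hTA _ hz'⟩)
  have hTr : ∀ c ∈ T, c ∉ rootC P n1 A := fun c hc => hdisj c (hTc c hc)
  have hxT : x ∈ T := by rw [hT, mem_filter]; exact ⟨hxQ, rfl⟩
  have harc := hI.arc h3 ht1 ht3
  have hr1 : (P.side (n1 - 1)).1 ∈ rootC P n1 A := by
    have := harc (n1 - 1 + P.N) (by have := hf.1; omega) (by have := hf.1; omega)
    rwa [H78.Q1.cell_period] at this
  have hr2 : (P.side (P.N - 1)).1 ∈ rootC P n1 A := harc _ (by omega) (by omega)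
  have hAT : IsHull P n1 (A ∪ T) := by
    refine ⟨hI.sat.union ⟨filter_subset _ _, ?_⟩, ?_, ?_, ?_, ?_⟩
    · intro c hc e he hec
      rw [hT, mem_filter] at hc ⊢
      exact ⟨he, hec.trans hc.2⟩
    · rw [mem_union]
      exact fun h1 => h1.elim hI.root (fun h2 => hTr _ h2 (self_mem_comp hI.root_mem))
    · rw [mem_union]
      exact fun h1 => h1.elim hI.root' (fun h2 => hTr _ h2 hr1)
    · rw [mem_union]
      exact fun h1 => h1.elim hI.mark (fun h2 => hTr _ h2 hr2)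
    · intro c hc
      rcases mem_union.1 hc with hc | hc
      · obtain ⟨r, h1, h2, h4⟩ := hI.att c hc
        exact ⟨r, h1, h2, h4.mono (by simp)⟩
      · obtain ⟨r, h1, h2, h4⟩ := hI.att y hyA
        refine ⟨r, h1, h2, ?_⟩
        have p1 : Rch ((A ∪ T : Finset Cell) : Set Cell) c x :=
          ((hpath c hc).symm (mem_coe.2 hxT)).mono (by simp)
        have p2 : Rch ((A ∪ T : Finset Cell) : Set Cell) x y :=
          Rch.single hxy (mem_coe.2 (mem_union_left _ hyA))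
        exact (p1.trans p2).trans (h4.mono (by simp))
  refine hmax _ (mem_Hs.2 hAT) ?_ ?_
  · rw [Finset.ssubset_iff_subset_ne]
    exact ⟨subset_union_left, fun e => hTA x hxT (by rw [e]; exact mem_union_right _ hxT)⟩
  · obtain ⟨z, hz, -, hzc⟩ := (hI.avoid_iff h3 hX hY hv hω).1 hXA
    refine H78.Q1.CT_iff.2 ⟨z, hz, hzc.mono ?_⟩
    intro e he
    obtain ⟨h1, h2⟩ := mem_inter.1 he
    refine mem_sdiff.2 ⟨h1, fun h4 => (mem_sdiff.1 h4).2 ?_⟩
    refine gs_mono ?_ h2
    intro c hc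
    have h5 := mem_sdiff.1 (hroot hc)
    refine mem_sdiff.2 ⟨h5.1, fun h6 => ?_⟩
    rcases mem_union.1 h6 with h7 | h7
    · exact h5.2 h7
    · exact hTr _ h7 hc

/-- **StADM.** -/
theorem StADM_of {g0 : ℤ} (hLAT : StLAT g0) : StADM g0 := by
  intro P X Y hT hG n1 hf A hA ω hω h
  exact adm (hH := hLAT P X Y hT hG n1 hf) (Tri.g3 hT) hG.1 hG.2.1 hf hA hω h

end Pool.Agent.H76.Q1
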