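import Pool.Agent.H44.Q1.C2Asm
import Pool.Agent.H44.Q1.C2KB
import Pool.Agent.H44.Q1.C2NH
import Pool.Agent.H44.Q1.C2C1
import Pool.Agent.H48.Q1.StRef
import Pool.Agent.H78.Q1.StLat
import Pool.Agent.H76.Q1.Adm
import Pool.Agent.H90.Q1.LB2

set_option autoImplicit false

/-! Module M5, step C2: the final assembly. -/

namespace Pool.Agent.H76.Q1

open Pool.Agent.Q1.M5 Pool.Agent.H44.Q1

/-- **(C2)**: the normalised `k`-point functions converge, given the bound of the bad event. -/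
theorem c2_final {pz : ℝ → ℝ} (hpz : StPz pz) (hB2 : StB2 pz) (hLB2 : StLB2 pz) : StC2 pz :=
  c2_of hpz hB2 Pool.Agent.H48.Q1.stREF stKB
    (StUB_of Pool.Agent.H78.Q1.stLAT) (StLB1_of Pool.Agent.H78.Q1.stLAT)
    (StU5_of (stC1_of hB2 Pool.Agent.H78.Q1.stLAT) (StADM_of Pool.Agent.H78.Q1.stLAT))
    (stNH hpz) hLB2

/-- **(C2)**: the normalised `k`-point functions converge. -/
theorem stC2 {pz : ℝ → ℝ} (hpz : StPz pz) (hB2 : StB2 pz) : StC2 pz :=
  c2_final hpz hB2 (Pool.Agent.H90.Q1.stLB2 pz hpz)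

end Pool.Agent.H76.Q1
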