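import Mathlib

set_option autoImplicit false
open Finset Filter Topology

/-! Convergence of the hull sum `U_j` (UB5 of Q1_C2.md), abstract form. -/

namespace Pool.Agent.H76.Q1

/-- Finite sums of products of normalised convergent sequences converge. -/
theorem hull_sum_tendsto {α ι : Type*} (H : Finset α) (s : α → Finset ι) (p : ℕ → ℝ)
    (F : ℕ → α → ℝ) (G : ℕ → α → ι → ℝ) (k : α → ι → ℕ) (K : ℕ)
    (hK : ∀ A ∈ H, ∑ a ∈ s A, k A a = K)
    (hF : ∀ A ∈ H, ∃ q, Tendsto (fun j => F j A / p j) atTop (𝓝 q))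
    (hG : ∀ A ∈ H, ∀ a ∈ s A, ∃ g, Tendsto (fun j => G j A a / p j ^ k A a) atTop (𝓝 g)) :
    ∃ u, Tendsto (fun j => (∑ A ∈ H, F j A * ∏ a ∈ s A, G j A a) / p j ^ (K + 1)) atTop (𝓝 u) := by
  choose! q hq using hF
  choose! g hg using hG
  refine ⟨∑ A ∈ H, q A * ∏ a ∈ s A, g A a, ?_⟩
  have h1 : Tendsto (fun j => ∑ A ∈ H, (F j A / p j) * ∏ a ∈ s A, (G j A a / p j ^ k A a)) atTop
      (𝓝 (∑ A ∈ H, q A * ∏ a ∈ s A, g A a)) :=
    tendsto_finsetSum _ fun A hA => (hq A hA).mul (tendsto_finsetProd _ fun a ha => hg A hA a ha)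
  refine h1.congr fun j => ?_
  rw [sum_div]
  refine sum_congr rfl fun A hA => ?_
  rw [prod_div_distrib, prod_pow_eq_pow_sum, hK A hA, pow_succ, mul_comm (p j ^ K) (p j),
    div_mul_div_comm]

end Pool.Agent.H76.Q1
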